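import Pool.Agent.Lib.MP_226ef1_lc.Simple

/-!
Inclusive varieties generated by finite families of finite simple semigroups are defined by
finitely many elementary identical inclusions.
-/

set_option autoImplicit false

namespace Pool.Agent.Results.MP_226ef1_lc.SimpleSemigroups

universe u

/-- Words: the free semigroup of nonempty words over the countably infinite alphabet of variables
`x_0, x_1, ...`. -/
abbrev Word : Type := FreeSemigroup ℕ

/-- `S` satisfies the identical inclusion of the word `p` in the set `V` of words: for every
homomorphism `φ` of the free semigroup into `S` there is `v ∈ V` with `φ p = φ v`. -/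
def Satisfies (S : Type u) [Semigroup S] (p : Word) (V : Set Word) : Prop :=
  ∀ φ : Word →ₙ* S, ∃ v ∈ V, φ p = φ v

/-- `T` belongs to the inclusive variety generated by the family `S`: it satisfies every identical
inclusion that all members of the family satisfy. -/
def InGenerated {k : ℕ} (S : Fin k → Type) [∀ i, Semigroup (S i)] (T : Type u) [Semigroup T] :
    Prop :=
  ∀ (p : Word) (V : Set Word), (∀ i, Satisfies (S i) p V) → Satisfies T p V

/-- A semigroup is simple if it has no nonempty two-sided ideal other than itself. -/
def IsSimple (S : Type) [Semigroup S] : Prop :=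
  ∀ I : Set S, I.Nonempty → (∀ s ∈ I, ∀ x : S, x * s ∈ I ∧ s * x ∈ I) → I = Set.univ

theorem IsSimple.exists {S : Type} [Semigroup S] (h : IsSimple S) (a b : S) :
    ∃ x y : S, x * a * y = b := by
  have h1 := h {b | ∃ x y : S, x * a * y = b} ⟨a * a * a, a, a, rfl⟩ (by
    rintro s ⟨x, y, rfl⟩ z
    exact ⟨⟨z * x, y, by simp only [mul_assoc]⟩, ⟨x, y * z, by simp only [mul_assoc]⟩⟩)
  have h2 : b ∈ {b | ∃ x y : S, x * a * y = b} := by rw [h1]; trivial
  exact h2

/-- For every finite family of finite simple semigroups the generated inclusive variety is defined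
by a finite set of elementary identical inclusions. -/
theorem result (k : ℕ) (S : Fin k → Type) [∀ i, Semigroup (S i)] [∀ i, Finite (S i)]
    (hS : ∀ i, IsSimple (S i)) :
    ∃ B : Set (Word × Finset Word), B.Finite ∧ ∀ (T : Type u) [Semigroup T],
      InGenerated S T ↔ ∀ b ∈ B, Satisfies T b.1 (b.2 : Set Word) :=
  Pool.Agent.Lib.MP_226ef1_lc.simple_finite_axiomatisable S fun i => (hS i).exists

end Pool.Agent.Results.MP_226ef1_lc.SimpleSemigroups
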