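import Pool.Agent.Lib.MP_226ef1_lc.U.Defs
import Pool.Agent.Lib.MP_226ef1_lc.U.H88.Final

/-!
There is no algorithm which decides, given the multiplication tables of finitely many finite
semigroups, whether the inclusive variety generated by these semigroups is defined by a finite set
of elementary identical inclusions.

The definitions (`Table`, `Table.IsSemigroup`, `Table.Sgp`, `Word`, `Satisfies`, `InGenerated`,
`FinitelyAxiomatisable`) are in `Pool/Agent/Lib/MP_226ef1_lc/U/Defs.lean`.
-/

set_option autoImplicit false

namespace Pool.Agent.Results.MP_226ef1_lc.Undecidable

open Pool.Agent.Lib.MP_226ef1_lc.U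

universe u

/-- No computable function decides, for all lists `L` of multiplication tables of finite
semigroups, whether the inclusive variety generated by these semigroups is defined by a finite set
of elementary identical inclusions. -/
theorem result : ¬ ∃ f : List Table → Bool, Computable f ∧
    ∀ (L : List Table) (hL : ∀ t ∈ L, t.IsSemigroup),
      f L = true ↔ FinitelyAxiomatisable.{u} L hL :=
  Pool.Agent.Lib.MP_226ef1_lc.U.H88.final

end Pool.Agent.Results.MP_226ef1_lc.Undecidable
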